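import Pool.Agent.CSZ.Main

/-!
# Every Cappell-Shaneson homotopy 4-sphere is diffeomorphic to the standard 4-sphere

`Surgered A P X` (file `Pool/Agent/CSE/Stmt.lean`; the definitions used there are in `Pool/Agent/CSF/Stmt.lean` and
`Pool/Agent/CSG/Defs.lean`) says that the smooth 4-manifold `X` is the result of the Cappell-Shaneson construction with
the monodromy matrix `A` and the framing `P`: the mapping torus of the diffeomorphism `A` of `T^3 = R^3 / Z^3`, surgered
along the circle through the fixed point `0`.

`AlwaysS4 A`: framings `P` exist; for every framing `P` the standard sphere `S^4` is such a manifold `X`; and every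
such `X` (whatever the framing) is diffeomorphic to `S^4`.
-/

open scoped Manifold ContDiff
open Pool.Agent.CSG Pool.Agent.CSF Pool.Agent.CSE

universe u

namespace Pool.Agent.Results.MP_cb9bff_gt.EveryCappellShaneson

/-- Let `A` be an integral `3 × 3` matrix with `det A = 1` and `det (A - 1) = ± 1`.  Then all results of the
Cappell-Shaneson construction with `A` are diffeomorphic to `S^4`, and for every framing `S^4` is one. -/
theorem result (A : Matrix (Fin 3) (Fin 3) ℤ) (hA : CSMatrix A) : AlwaysS4.{u} A :=
  CSZ.always_s4 hA

end Pool.Agent.Results.MP_cb9bff_gt.EveryCappellShaneson
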