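import Pool.Agent.NHV.Main

/-!
# The homotopy theorem for twin surgery in 4-manifolds

Let `W` be a Hausdorff 4-manifold (any model; closed or not) which contains `N × S¹` as an open subset, `N` a connected
Hausdorff smooth 3-manifold (compact or not).  For a framed knot `κ` in `N` with core `K` and integers `n`, `j` we remove the
torus `K × S¹` from `W` and glue in a twin (two 2-spheres which meet transversally in two points), such that the meridians of
the spheres are `e = t + n l + j m` and `m - e`.  We show that the result depends only on the free homotopy class of `K` in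
`N`, if `H₁(N; ℤ/2)` is generated by the class of `K`: not on the isotopy class, not on the framing and not on `j`.

For `n ≠ 0` the direction of the knot matters, and we assume that `κ` is not freely homotopic to its reverse, or that the
reflection `(x, t) ↦ (x, -t)` of `N × S¹` extends to a diffeomorphism of `W`.  The reflection exists for `W = N × S¹`: for
`N = S³` the manifolds are the results of the Gluck twists of the 4-sphere along the `j`-twist `n`-roll spins of all knots.
For `N = S¹ × ℝ²`, i.e. for a torus `S¹ × S¹` with trivial normal bundle in any 4-manifold `W`, the theorem says that the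
surgery along the torus given by a knot (pattern) in the solid torus of odd winding number depends only on this number.
-/

open scoped Manifold ContDiff
open Pool.Agent.RSG (E3 E4 Thick)
open Pool.Agent.NHT Pool.Agent.NHV

namespace Pool.Agent.Results.MP_cb9bff_gt.HomotopyTheorem

universe u v w x y

theorem result (N : Type u) [TopologicalSpace N] [ChartedSpace E3 N] [T2Space N] [IsManifold (𝓡 3) ∞ N] [ConnectedSpace N]
    -- a manifold `W` (of dimension 4, any model) and an open embedding of `N × S¹` in `W`
    (EW : Type x) [NormedAddCommGroup EW] [NormedSpace ℝ EW] (HW : Type y) [TopologicalSpace HW]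
    (IW : ModelWithCorners ℝ EW HW) (W : Type w) [TopologicalSpace W] [ChartedSpace HW W] [T2Space W]
    (ι : N × ℝ → W) (_ : ProdEmb IW ι)
    -- two freely homotopic knots in `N` which generate `H₁(N; ℤ/2)`
    (κ κ' : ℝ × ℂ → N) (_ : Thick κ) (_ : Thick κ') (_ : FreeHomotopic κ κ') (_ : GenH1 κ)
    -- `n = 0`, or the knot is not freely homotopic to its reverse, or `(x, t) ↦ (x, -t)` extends to `W`
    (n : ℤ) (_ : n = 0 ∨ (¬ FreeHomotopic κ fun q => κ (-q.1, q.2)) ∨ Reflects IW ι)
    (j j' : ℤ) (X : Type v) [TopologicalSpace X] [ChartedSpace E4 X] [T2Space X] :
    IsRollGluckIn IW ι κ n j X ↔ IsRollGluckIn IW ι κ' n j' X :=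
  homotopy_in ‹_› ‹_› ‹_› ‹_› ‹_› ‹_› j j'

end Pool.Agent.Results.MP_cb9bff_gt.HomotopyTheorem
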