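import Pool.Agent.LNS.Main

/-!
# Twin manifolds of links in 3-manifolds

For a framed link `K` with `r + 1` components `κ i` in a 3-manifold `N` and integers `n i` the twin manifolds are the unions of
`(N - K) × S¹` and of `r + 1` twins (neighbourhoods of two 2-spheres in the 4-sphere which meet in two points) with all
possible gluings which send the third coordinate of the twin `i` to `l - n i t`.  Examples are the link versions of the
twist-roll spins and their simultaneous Gluck twists.

`RelL n` is the equivalence relation on links in 3-manifolds generated by `1/(k i * n i)`-surgeries on the components (new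
link: the dual link), the integers `k i` being the degrees on the meridians of a map of the complement to the circle which is
constant on the longitudes, and, for knots, by free homotopies in `N`.  If `(N, K)` is related to a link of the 3-sphere
(every link is allowed), every twin manifold of `K` exists, is unique and is a connected sum of `r` sphere bundles over the
2-sphere; for `r = 0` it is the 4-sphere.
-/

open scoped Manifold ContDiff
open Pool.Agent.RSG Pool.Agent.NHS Pool.Agent.LKB Pool.Agent.LKZ Pool.Agent.LNS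

namespace Pool.Agent.Results.MP_cb9bff_gt.LinkTwins

universe u v

theorem result {r : ℕ} (n : Fin (r + 1) → ℤ) (κ₀ : Fin (r + 1) → ℝ × ℂ → S3) (h₀ : ThickL κ₀) (K : Link3 r)
    (h : RelL n ⟨S3, κ₀, h₀⟩ K) :
    -- every twin manifold of `K` exists, is unique, and is a sum `M` of `r` sphere bundles over the sphere
    (∀ a₁ b₁ a₂ b₂ : Fin (r + 1) → ℤ, (∀ i, Uni (a₁ i) (b₁ i) (a₂ i) (b₂ i)) →
      ∃ M : Mf, BSum r M ∧ Nonempty (TwinL K.κ a₁ b₁ a₂ b₂ n M.X) ∧
      ∀ (X : Type u) [TopologicalSpace X] [ChartedSpace E4 X] [T2Space X],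
        Nonempty (TwinL K.κ a₁ b₁ a₂ b₂ n X) → Nonempty (X ≃ₘ⟮𝓡 4, 𝓡 4⟯ M.X)) ∧
    -- the same as Gluck twists: the simultaneous Gluck twists along the 2-knots of the twist-roll spins
    ∀ j : Fin (r + 1) → ℤ, ∃ M : Mf, BSum r M ∧
      ∀ (Y : Type v) [TopologicalSpace Y] [ChartedSpace E4 Y] (D : RollSpinL K.κ n j Y)
        (X : Type u) [TopologicalSpace X] [ChartedSpace E4 X] [T2Space X]
        (_ : GluckTwistL D.tube X), Nonempty (X ≃ₘ⟮𝓡 4, 𝓡 4⟯ M.X) := by
  refine ⟨fun a₁ b₁ a₂ b₂ hU => recognitionL h₀ h hU, fun j => ?_⟩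
  obtain ⟨M, hM, -, hX⟩ := recognitionL.{u} h₀ h (a₁ := 1) (b₁ := 1 - j) (a₂ := 1) (b₂ := -j) fun i => by
    refine Or.inr ?_
    simp only [Pi.one_apply, Pi.sub_apply, Pi.neg_apply]
    ring
  exact ⟨M, hM, fun Y _ _ D X _ _ _ G => hX X (gluck_spinL D G)⟩

end Pool.Agent.Results.MP_cb9bff_gt.LinkTwins
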