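import Mathlib
import Pool.Agent.MMV.NAc

/-!
# Torus moves on circles in 4-manifolds, homotopy 4-spheres of presentations

`Fam p g X`: `X` is the result of a surgery on `N` along disjoint thick circles (embedded `S¹ × B³`, any framings) in the
classes `g i` of the fundamental group of `N`, one circle for each `i : ι`.

`TEq g g'`: the families `g`, `g'` of elements of a group are related by a finite sequence of Andrews-Curtis moves
(`g i ↦ (g i)⁻¹`, `g i ↦ g i * g j`, `g i ↦ w * g i * w⁻¹`), torus moves
`(g i, g j) ↦ (g i ^ b * g j ^ (-d), g i ^ a * w * g j ^ c * w⁻¹)`, where `a d + b c = ± 1` and `w` is any element of the subgroup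
generated by `g i` and `g j`, and inverses of such moves.

`Dbl (-1/2) (1/2) k₁ k₂ ε`: `M` is the connected sum of two copies of `S¹ × S³`, the thick circles `k₁`, `k₂` represent the two
generators: `S⁴` is the result of the surgery on `M` along `k₁`, `k₂`, the two glued in 2-spheres being the spheres over the points
`-1/2`, `1/2` of the unit disc in `S⁴ ⊆ ℂ × ℝ³`.
-/

open scoped ContDiff Manifold Topology unitInterval
open Set Filter

namespace Pool.Agent.Results.MP_cb9bff_gt.TorusMoves

open Pool.Agent.ACB Pool.Agent.MMV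

theorem result :
    -- the connected sum of two copies of `S¹ × S³` exists
    (∃ (M : Type) (_ : TopologicalSpace M) (_ : ChartedSpace E4 M), IsManifold (𝓡 4) ∞ M ∧ T2Space M ∧
      ∃ k₁ k₂ : ℝ × E3 → M, Nonempty (Dbl (-1 / 2) (1 / 2) k₁ k₂ (1 / 4))) ∧
    -- the moves connect Gordon's presentations of the class `GT` with the trivial one
    (∀ m n p k : ℤ, GT m n p k →
      TEq FreeGroup.of ![(Pool.Agent.ACP.Gordon m n p k).1, (Pool.Agent.ACP.Gordon m n p k).2]) ∧
    -- Andrews-Curtis moves and torus moves on the circles do not change the manifolds which are obtained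
    (∀ (N : Type) [TopologicalSpace N] [ChartedSpace E4 N] [T2Space N] [IsManifold (𝓡 4) ∞ N] (p : N) (ι : Type)
      [Finite ι] [DecidableEq ι] (g g' : ι → FundamentalGroup N p), TEq g g' →
      ∀ (X : Type) [TopologicalSpace X] [ChartedSpace E4 X], Fam p g X ↔ Fam p g' X) ∧
    ∀ (M : Type) [TopologicalSpace M] [ChartedSpace E4 M] [T2Space M] [IsManifold (𝓡 4) ∞ M]
      (k₁ k₂ : ℝ × E3 → M) (ε : ℝ) (_ : Dbl (-1 / 2) (1 / 2) k₁ k₂ ε) (q : M)
      (φ : FreeGroup (Fin 2) →* FundamentalGroup M q), Cls q (core k₁) (φ (FreeGroup.of 0)) →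
      Cls q (core k₂) (φ (FreeGroup.of 1)) →
      -- the homotopy 4-spheres of all the presentations which these moves connect with the trivial one are standard
      (∀ P : Fin 2 → FreeGroup (Fin 2), TEq FreeGroup.of P → Fam q (fun i => φ (P i)) S4 ∧
        ∀ (X : Type) [TopologicalSpace X] [ChartedSpace E4 X], Fam q (fun i => φ (P i)) X →
          Nonempty (X ≃ₘ⟮𝓡 4, 𝓡 4⟯ S4)) ∧
      -- every presentation `⟨x, y | r₁, r₂⟩` of the trivial group for which one surgery gives `S⁴` is a move
      ∀ r₁ r₂ : FreeGroup (Fin 2), Subgroup.normalClosure {r₁, r₂} = ⊤ → Fam q ![φ r₁, φ r₂] S4 →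
        ∀ (N : Type) [TopologicalSpace N] [ChartedSpace E4 N] [T2Space N] [IsManifold (𝓡 4) ∞ N] (p : N) (ι : Type)
          [Finite ι] (u v : FundamentalGroup N p) (h : ι → FundamentalGroup N p) (X : Type) [TopologicalSpace X]
          [ChartedSpace E4 X], Fam p (Sum.elim ![u, v] h) X ↔
            Fam p (Sum.elim ![FreeGroup.lift ![u, v] r₁, FreeGroup.lift ![u, v] r₂] h) X := by
  refine ⟨exists_dbl, fun m n p k h => teq_gordon h, ?_, ?_⟩
  · intro N _ _ _ _ p ι _ _ g g' h X _ _
    exact fam_teq h
  · intro M _ _ _ _ k₁ k₂ ε D q φ hx hy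
    refine ⟨fun P hP => teq_spheres D φ hx hy hP, ?_⟩
    intro r₁ r₂ hr hS N _ _ _ _ p ι _ u v h X _ _
    exact word_move' D φ hx hy hr (fam_two.mp hS) u v h

end Pool.Agent.Results.MP_cb9bff_gt.TorusMoves
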